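import Pool.Agent.Helper56.SY.Slab

/-!
# Strict positivity where `PP` (or `PC`) fails (project MP_a2630c_SY, module LOW)
-/

open MeasureTheory Set Metric Real Filter Topology
open scoped RealInnerProductSpace ENNReal
open Pool.Agent.Helper16.Buoy (E cap IsEllipsoid Homothetic buoyancyBody)
open Pool.Agent.Helper73.HV (supp)
open Pool.Agent.Helper73.LR (CB vol GG Sol aff)

namespace Pool.Agent.Helper56.SY

open Pool.Agent.Helper73.SY Pool.Agent.Helper65.LR Pool.Agent.Helper51.HV

variable {n : ℕ} {K : Set (E n)} {δ lam : ℝ} {X : E n → E n} {t : E n → ℝ} {p q : E n}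

/-- Positive part of `<v,x> - τ`. -/
noncomputable def ff (v : E n) (τ : ℝ) (x : E n) : ℝ := max (inner ℝ v x - τ) 0

/-- Mixed difference. -/
noncomputable def PH (p q v : E n) (τ : ℝ) (x : E n) : ℝ :=
  ff v τ x + ff v τ (iot p q x) - ff v τ (rr p q x) - ff v τ (iot p q (rr p q x))

theorem mm (s a : ℝ) : max (s + a) 0 + max (s - a) 0 = s + max |s| |a| := by
  rcases le_total 0 s with hs | hs <;> rcases le_total 0 a with ha | ha
  · rw [abs_of_nonneg hs, abs_of_nonneg ha, max_eq_left (by linarith : (0 : ℝ) ≤ s + a)]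
    rcases le_total a s with h | h
    · rw [max_eq_left (by linarith), max_eq_left h]; ring
    · rw [max_eq_right (by linarith), max_eq_right h]; ring
  · rw [abs_of_nonneg hs, abs_of_nonpos ha, max_eq_left (by linarith : (0 : ℝ) ≤ s - a)]
    rcases le_total (-a) s with h | h
    · rw [max_eq_left (by linarith), max_eq_left h]; ring
    · rw [max_eq_right (by linarith), max_eq_right h]; ring
  · rw [abs_of_nonpos hs, abs_of_nonneg ha, max_eq_right (by linarith : s - a ≤ 0)]
    rcases le_total a (-s) with h | h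
    · rw [max_eq_right (by linarith), max_eq_left h]; ring
    · rw [max_eq_left (by linarith), max_eq_right h]; ring
  · rw [abs_of_nonpos hs, abs_of_nonpos ha, max_eq_right (by linarith : s + a ≤ 0)]
    rcases le_total (-a) (-s) with h | h
    · rw [max_eq_right (by linarith), max_eq_left h]; ring
    · rw [max_eq_left (by linarith), max_eq_right h]; ring

/-- The component orthogonal to `p`, `q` of the pairing, minus `τ`. -/
noncomputable def sv (p q v : E n) (τ : ℝ) (x : E n) : ℝ :=
  inner ℝ v x - inner ℝ p v * inner ℝ p x - inner ℝ q v * inner ℝ q x - τ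

/-- `A`. -/
noncomputable def AA (p q v x : E n) : ℝ :=
  (inner ℝ p v - inner ℝ q v) * (inner ℝ p x - inner ℝ q x) / 2

/-- `B`. -/
noncomputable def BB (p q v x : E n) : ℝ :=
  (inner ℝ p v + inner ℝ q v) * (inner ℝ p x + inner ℝ q x) / 2

theorem PH_eq (h : ON p q) (v : E n) (τ : ℝ) (x : E n) : PH p q v τ x =
    max |sv p q v τ x| |AA p q v x + BB p q v x| - max |sv p q v τ x| |BB p q v x - AA p q v x| := by
  have h1 := mm (sv p q v τ x) (AA p q v x + BB p q v x)
  have h2 := mm (sv p q v τ x) (BB p q v x - AA p q v x)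
  have e1 : (inner ℝ v x - τ : ℝ) = sv p q v τ x + (AA p q v x + BB p q v x) := by
    unfold sv AA BB; ring
  have e2 : (inner ℝ v (iot p q x) - τ : ℝ) = sv p q v τ x - (AA p q v x + BB p q v x) := by
    rw [inner_iot]; unfold sv AA BB; ring
  have e3 : (inner ℝ v (rr p q x) - τ : ℝ) = sv p q v τ x + (BB p q v x - AA p q v x) := by
    rw [inner_rr]; unfold sv AA BB; ring
  have e4 : (inner ℝ v (iot p q (rr p q x)) - τ : ℝ) =
      sv p q v τ x - (BB p q v x - AA p q v x) := by
    rw [inner_iot, p_rr h, q_rr h, inner_rr]; unfold sv AA BB; ring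
  unfold PH ff
  rw [e1, e2, e3, e4]
  linarith

theorem PH_nonneg (h : ON p q) (v : E n) (τ : ℝ) (x : E n) (hw : 0 ≤ ww p q v * ww p q x) :
    0 ≤ PH p q v τ x := by
  rw [PH_eq h]
  have h1 : |BB p q v x - AA p q v x| ≤ |AA p q v x + BB p q v x| := by
    apply sq_le_sq.1
    have h2 : AA p q v x * BB p q v x = ww p q v * ww p q x / 4 := by
      unfold AA BB ww; ring
    nlinarith
  have := max_le_max_left |sv p q v τ x| h1
  linarith

theorem PH_lower (h : ON p q) (v : E n) (τ : ℝ) (x : E n) {m : ℝ} (hm : 0 ≤ m)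
    (hA : m ≤ 2 * AA p q v x) (hB : m ≤ 2 * BB p q v x)
    (hs : |sv p q v τ x| + m ≤ AA p q v x + BB p q v x) : m ≤ PH p q v τ x := by
  rw [PH_eq h]
  have h1 : |AA p q v x + BB p q v x| = AA p q v x + BB p q v x := abs_of_nonneg (by linarith)
  have h2 : |BB p q v x - AA p q v x| ≤ AA p q v x + BB p q v x - m := by
    rw [abs_le]; constructor <;> linarith
  have h3 : max |sv p q v τ x| |BB p q v x - AA p q v x| ≤ AA p q v x + BB p q v x - m :=
    max_le (by linarith) h2
  have h4 := le_max_right |sv p q v τ x| |AA p q v x + BB p q v x|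
  rw [h1] at h4 ⊢
  linarith

theorem PH_rr (h : ON p q) (v : E n) (τ : ℝ) (x : E n) :
    PH p q v τ (rr p q x) = -PH p q v τ x := by
  unfold PH
  rw [rr_rr h]; ring

theorem ff_cont (v : E n) (τ : ℝ) : Continuous (ff v τ) := by
  unfold ff; fun_prop

theorem PH_cont (v : E n) (τ : ℝ) : Continuous (PH p q v τ) := by
  unfold PH
  have h1 := ff_cont v τ
  exact (((h1.add (h1.comp iot_cont)).sub (h1.comp rr_cont)).sub
    (h1.comp (iot_cont.comp rr_cont)))

theorem ww_pos_of (hK : CB K) (h : ON p q) (hι : iot p q '' K = K)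
    (hmono : ∀ v, Sec p q v → supp K (rr p q v) ≤ supp K v) {x : E n} (hx : x ∈ K)
    (hrx : rr p q x ∉ K) : 0 < ww p q x := by
  obtain ⟨u, hu⟩ : ∃ u : E n, supp K u < inner ℝ u (rr p q x) := by
    by_contra hcon
    push Not at hcon
    exact hrx (mem_of_supp hK.conv hK.comp hcon ⟨x, hx⟩)
  set v := rr p q u with hv
  have hrv : rr p q v = u := rr_rr h u
  rw [← rr_symm, ← hv] at hu
  rw [← hrv] at hu
  have hvx : (inner ℝ v x : ℝ) ≤ supp K v := le_supp hK.comp hx v
  have hlt : supp K (rr p q v) < supp K v := lt_of_lt_of_le hu hvx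
  have h1 : (inner ℝ (rr p q v) x : ℝ) ≤ supp K (rr p q v) := le_supp hK.comp hx _
  have h2 : (inner ℝ (iot p q (rr p q v)) x : ℝ) ≤ supp K (rr p q v) := by
    rw [← supp_iot h hι]; exact le_supp hK.comp hx _
  rw [rr_symm, inner_rr] at h1
  rw [iot_symm, rr_symm, inner_rr, inner_iot, p_iot h, q_iot h] at h2
  have h3 : 0 < (inner ℝ p x - inner ℝ q x) * (inner ℝ p v - inner ℝ q v : ℝ) := by linarith
  have h4 : 0 < (inner ℝ p x + inner ℝ q x) * (inner ℝ p v + inner ℝ q v : ℝ) := by
    have e : (inner ℝ v x : ℝ) - (2 * inner ℝ p x * inner ℝ p v + 2 * inner ℝ q x * inner ℝ q v)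
      - (-(inner ℝ p x) - -(inner ℝ q x)) * (inner ℝ p v - inner ℝ q v) =
      inner ℝ v x - (inner ℝ p x + inner ℝ q x) * (inner ℝ p v + inner ℝ q v) := by ring
    have e2 : (inner ℝ v x : ℝ) - 2 * inner ℝ p x * inner ℝ p v - 2 * inner ℝ q x * inner ℝ q v
      - (-(inner ℝ p x) - -(inner ℝ q x)) * (inner ℝ p v - inner ℝ q v) =
      inner ℝ v x - (inner ℝ p x + inner ℝ q x) * (inner ℝ p v + inner ℝ q v) := by ring
    linarith
  have h5 : 0 < ww p q x * ww p q v := by
    have := mul_pos h3 h4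
    unfold ww
    nlinarith
  have h6 : 0 < ww p q v := by
    by_contra hcon
    push Not at hcon
    unfold ww at hcon
    set a : ℝ := inner ℝ p v with ha
    set b : ℝ := inner ℝ q v with hb
    rcases eq_or_lt_of_le (sub_nonpos.1 hcon) with h7 | h7
    · rcases sq_eq_sq_iff_eq_or_eq_neg.1 h7 with h8 | h8
      · have h9 : rr p q v = v := by
          unfold rr
          rw [inner_sub_left, ← ha, ← hb, h8]; simp
        rw [h9] at hlt
        exact lt_irrefl _ hlt
      · have h9 : rr p q v = iot p q v := by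
          unfold rr iot
          rw [inner_sub_left, ← ha, ← hb, h8]; module
        rw [h9, supp_iot h hι] at hlt
        exact lt_irrefl _ hlt
    · have h8 : |a| < |b| := sq_lt_sq.1 h7
      rcases le_or_gt 0 b with h9 | h9
      · rw [abs_of_nonneg h9] at h8
        have h10 : Sec p q (rr p q v) := by
          unfold Sec
          rw [p_rr h, q_rr h]; exact h8
        have := hmono _ h10
        rw [rr_rr h] at this
        linarith
      · rw [abs_of_neg h9] at h8
        have h10 : Sec p q (iot p q (rr p q v)) := by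
          unfold Sec
          rw [p_iot h, q_iot h, p_rr h, q_rr h, abs_neg]; exact h8
        have := hmono _ h10
        rw [← iot_rr h, rr_rr h, supp_iot h hι, supp_iot h hι] at this
        linarith
  exact (pos_iff_pos_of_mul_pos h5).2 h6

theorem sec_ne_zero {v : E n} (hv : Sec p q v) : v ≠ 0 := by
  rintro rfl
  unfold Sec at hv
  simp at hv

theorem ww_pos {v : E n} (hv : Sec p q v) : 0 < ww p q v := by
  unfold Sec at hv
  unfold ww
  have h1 : |(inner ℝ q v : ℝ)| < |inner ℝ p v| := hv.trans_le (le_abs_self _)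
  have := sq_lt_sq.2 h1
  linarith

theorem rr_ne_zero (h : ON p q) {v : E n} (hv : v ≠ 0) : rr p q v ≠ 0 := by
  intro h1
  apply hv
  rw [← rr_rr h v, h1]
  unfold rr; simp

/-- The integral identity. -/
theorem int_PH (hK : CB K) (h : ON p q) (hι : iot p q '' K = K) (v : E n) (τ : ℝ) :
    ∫ x in K, PH p q v τ x = 2 * (GG K v τ - GG K (rr p q v) τ) := by
  have hi : ∀ {f : E n → ℝ}, Continuous f → IntegrableOn f K := fun hf => int_on hK.comp hf
  have c1 := ff_cont v τ
  have c2 : Continuous fun x => ff v τ (iot p q x) := c1.comp iot_cont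
  have c3 : Continuous fun x => ff v τ (rr p q x) := c1.comp rr_cont
  have c4 : Continuous fun x => ff v τ (iot p q (rr p q x)) := c2.comp rr_cont
  have e0 : ∫ x in K, PH p q v τ x = (∫ x in K, ff v τ x) + (∫ x in K, ff v τ (iot p q x))
      - (∫ x in K, ff v τ (rr p q x)) - ∫ x in K, ff v τ (iot p q (rr p q x)) := by
    have i1 : IntegrableOn (fun x => ff v τ x) K := hi c1
    have i2 : IntegrableOn (fun x => ff v τ (iot p q x)) K := hi c2
    have i3 : IntegrableOn (fun x => ff v τ (rr p q x)) K := hi c3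
    have i4 : IntegrableOn (fun x => ff v τ (iot p q (rr p q x))) K := hi c4
    have i12 : IntegrableOn (fun x => ff v τ x + ff v τ (iot p q x)) K := hi (c1.add c2)
    have i123 : IntegrableOn (fun x => ff v τ x + ff v τ (iot p q x) - ff v τ (rr p q x)) K :=
      hi ((c1.add c2).sub c3)
    unfold PH
    rw [integral_sub i123 i4, integral_sub i12 i3, integral_add i1 i2]
  have e1 : ∫ x in K, ff v τ (iot p q x) = ∫ x in K, ff v τ x :=
    int_iot h (fun x => mem_iot h hι x) (ff v τ)
  have e2 : ∫ x in K, ff v τ (iot p q (rr p q x)) = ∫ x in K, ff v τ (rr p q x) := by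
    have := int_iot h (S := K) (fun x => mem_iot h hι x) (fun x => ff v τ (rr p q x))
    simp only [← iot_rr h] at this
    exact this
  have e3 : ∫ x in K, ff v τ (rr p q x) = GG K (rr p q v) τ := by
    unfold GG ff
    simp only [rr_symm]
  have e4 : ∫ x in K, ff v τ x = GG K v τ := rfl
  rw [e0, e1, e2, e3, e4]; ring

/-- The main inequality. -/
theorem main_ineq (D : Dat K δ lam X t) (h : ON p q) (hι : iot p q '' K = K)
    (hmono : ∀ v, Sec p q v → supp K (rr p q v) ≤ supp K v) {v : E n} (hv : Sec p q v)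
    {B : Set (E n)} (hBK : B ⊆ K) (hBL : ∀ x ∈ B, rr p q x ∉ K) :
    ∫ x in B, PH p q v (t v) x ≤ 2 * lam * (supp K v - supp K (rr p q v)) := by
  have hK := D.cs.cb
  have hv0 := sec_ne_zero hv
  have h1 : lam * supp K v - lam * supp K (rr p q v) ≥ GG K v (t v) - GG K (rr p q v) (t v) := by
    have h2 := D.teq v hv0
    have h3 := D.tmin (rr p q v) (rr_ne_zero h hv0) (t v)
    linarith
  have h2 := int_PH hK h hι v (t v)
  set S := (rr p q) ⁻¹' K with hS
  have hSm : MeasurableSet S := hK.comp.measurableSet.preimage rr_cont.measurable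
  have hint : IntegrableOn (PH p q v (t v)) K := int_on hK.comp (PH_cont v _)
  have h3 := integral_inter_add_sdiff (f := PH p q v (t v)) hSm hint
  have h4 : ∫ x in K ∩ S, PH p q v (t v) x = 0 := by
    have h5 := int_rr h (S := K ∩ S) (fun x => by
      constructor
      · rintro ⟨h6, h7⟩
        have h7' : rr p q (rr p q x) ∈ K := h7
        rw [rr_rr h] at h7'
        exact ⟨h7', h6⟩
      · rintro ⟨h6, h7⟩
        refine ⟨h7, ?_⟩
        show rr p q (rr p q x) ∈ K
        rw [rr_rr h]; exact h6) (PH p q v (t v))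
    simp only [PH_rr h] at h5
    rw [integral_neg] at h5
    linarith
  have h5 : ∫ x in B, PH p q v (t v) x ≤ ∫ x in K \ S, PH p q v (t v) x := by
    apply setIntegral_mono_set
    · exact hint.mono_set sdiff_subset
    · refine (ae_restrict_iff' (hK.comp.measurableSet.diff hSm)).2
        (Filter.Eventually.of_forall fun x hx => ?_)
      have hx2 := ww_pos_of hK h hι hmono hx.1 hx.2
      exact PH_nonneg h v _ x (mul_pos (ww_pos hv) hx2).le
    · exact Filter.Eventually.of_forall fun x hx => ⟨hBK hx, hBL x hx⟩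
  linarith

theorem tcont (D : Dat K δ lam X t) {u : E n} (hu : u ≠ 0) : ContinuousAt t u :=
  D.tc.continuousAt (isOpen_compl_singleton.mem_nhds hu)

/-- Every neighbourhood of a point of `K` contains a ball of interior points of `K`. -/
theorem exists_ball (hK : CB K) {x : E n} (hx : x ∈ K) {U : Set (E n)} (hU : U ∈ 𝓝 x) :
    ∃ (y : E n) (R : ℝ), 0 < R ∧ ball y R ⊆ K ∧ ball y R ⊆ U := by
  have h1 : x ∈ closure (interior K) := by
    rw [hK.conv.closure_interior_eq_closure_of_nonempty_interior hK.int]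
    exact subset_closure hx
  obtain ⟨y, hy1, hy2⟩ := mem_closure_iff_nhds.1 h1 _ (interior_mem_nhds.2 hU)
  obtain ⟨R, hR, hb⟩ := Metric.isOpen_iff.1 (isOpen_interior.inter isOpen_interior) y ⟨hy1, hy2⟩
  exact ⟨y, R, hR, fun z hz => interior_subset (hb hz).2, fun z hz => interior_subset (hb hz).1⟩

/-- The hyperplane of level `t u` meets the interior of `K`. -/
theorem hyper_meets (D : Dat K δ lam X t) {u : E n} (hu : u ≠ 0) :
    ∃ z ∈ interior K, (inner ℝ u z : ℝ) = t u := by
  have hK := D.cs.cb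
  have hu' : -u ≠ 0 := neg_ne_zero.2 hu
  -- a point above
  obtain ⟨z2, hz2, hz2'⟩ : ∃ z ∈ interior K, t u < inner ℝ u z := by
    have h1 : {x : E n | t u < inner ℝ u x} ∈ 𝓝 (X u) := by
      apply (isOpen_lt continuous_const (by fun_prop)).mem_nhds
      show t u < inner ℝ u (X u)
      rw [D.Xsup u hu]; exact D.tup u hu
    obtain ⟨y, R, hR, h2, h3⟩ := exists_ball hK (D.Xmem u hu) h1
    exact ⟨y, interior_mono h2 (by rw [isOpen_ball.interior_eq]; exact mem_ball_self hR),
      h3 (mem_ball_self hR)⟩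
  obtain ⟨z1, hz1, hz1'⟩ : ∃ z ∈ interior K, inner ℝ u z < t u := by
    have h1 : {x : E n | inner ℝ u x < t u} ∈ 𝓝 (X (-u)) := by
      apply (isOpen_lt (by fun_prop) continuous_const).mem_nhds
      show inner ℝ u (X (-u)) < t u
      have h2 := D.Xsup (-u) hu'
      rw [inner_neg_left] at h2
      have h3 := D.tlo u hu
      linarith
    obtain ⟨y, R, hR, h2, h3⟩ := exists_ball hK (D.Xmem (-u) hu') h1
    exact ⟨y, interior_mono h2 (by rw [isOpen_ball.interior_eq]; exact mem_ball_self hR),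
      h3 (mem_ball_self hR)⟩
  have h1 := hK.conv.interior.isPreconnected.intermediate_value hz1 hz2
    (f := fun x : E n => (inner ℝ u x : ℝ)) (by fun_prop)
  obtain ⟨z, hz, hz'⟩ := h1 ⟨hz1'.le, hz2'.le⟩
  exact ⟨z, hz, hz'⟩

/-- A neighbourhood on which the two linear forms are bounded below. -/
theorem sec_nhds {x : E n} (hx : Sec p q x) : ∃ m : ℝ, 0 < m ∧
    ∀ᶠ y in 𝓝 x, m ≤ inner ℝ p y - inner ℝ q y ∧ m ≤ inner ℝ p y + inner ℝ q y := by
  unfold Sec at hx
  rw [abs_lt] at hx
  have h1 : 0 < (inner ℝ p x - inner ℝ q x : ℝ) := by linarith [hx.2]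
  have h2 : 0 < (inner ℝ p x + inner ℝ q x : ℝ) := by linarith [hx.1]
  set m := min ((inner ℝ p x - inner ℝ q x : ℝ) / 2) ((inner ℝ p x + inner ℝ q x : ℝ) / 2) with hm
  have hm1 : m ≤ (inner ℝ p x - inner ℝ q x : ℝ) / 2 := min_le_left _ _
  have hm2 : m ≤ (inner ℝ p x + inner ℝ q x : ℝ) / 2 := min_le_right _ _
  have hmp : 0 < m := lt_min (by linarith) (by linarith)
  refine ⟨m, hmp, ?_⟩
  have c1 : ContinuousAt (fun y : E n => (inner ℝ p y - inner ℝ q y : ℝ)) x := by fun_prop
  have c2 : ContinuousAt (fun y : E n => (inner ℝ p y + inner ℝ q y : ℝ)) x := by fun_prop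
  have e1 := c1.eventually (lt_mem_nhds (by linarith : m < (inner ℝ p x - inner ℝ q x : ℝ)))
  have e2 := c2.eventually (lt_mem_nhds (by linarith : m < (inner ℝ p x + inner ℝ q x : ℝ)))
  filter_upwards [e1, e2] with y h3 h4
  exact ⟨h3.le, h4.le⟩

theorem not_rr_nhds (hK : CB K) {x : E n} (hx : rr p q x ∉ K) : ∀ᶠ y in 𝓝 x, rr p q y ∉ K := by
  have h1 : IsOpen (rr p q ⁻¹' K)ᶜ := (hK.comp.isClosed.preimage rr_cont).isOpen_compl
  exact h1.mem_nhds hx

theorem mem_rr_image (h : ON p q) {x : E n} : x ∈ rr p q '' K ↔ rr p q x ∈ K := by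
  constructor
  · rintro ⟨y, hy, rfl⟩
    rw [rr_rr h]; exact hy
  · intro hx
    exact ⟨_, hx, rr_rr h x⟩

/-- Away from the corner. -/
theorem lower_noncorner (D : Dat K δ lam X t) (h : ON p q) (hι : iot p q '' K = K)
    (hmono : ∀ v, Sec p q v → supp K (rr p q v) ≤ supp K v) {u : E n} (hu : u ≠ 0)
    (hPP : ¬ PP K t p q u) :
    ∃ c : ℝ, 0 < c ∧ ∀ᶠ v in 𝓝 u, Sec p q v → c * ww p q v ≤ supp K v - supp K (rr p q v) := by
  have hK := D.cs.cb
  unfold PP at hPP
  push Not at hPP
  obtain ⟨x0, hx0, hx0s, hx1, hx2, hx3⟩ := hPP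
  rw [mem_rr_image h] at hx3
  obtain ⟨m, hm, hmn⟩ := sec_nhds hx0s
  -- margins
  set η := min ((t u - inner ℝ u (iot p q x0)) / 2) ((inner ℝ u x0 - t u) / 2) with hη
  have hη1 : η ≤ (t u - inner ℝ u (iot p q x0)) / 2 := min_le_left _ _
  have hη2 : η ≤ (inner ℝ u x0 - t u) / 2 := min_le_right _ _
  have hηp : 0 < η := lt_min (by linarith) (by linarith)
  have c1 : ContinuousAt (fun z : E n × E n => t z.1 - inner ℝ z.1 (iot p q z.2)) (u, x0) := by
    have h1 : ContinuousAt (fun z : E n × E n => t z.1) (u, x0) :=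
      (tcont D hu).comp (f := fun z : E n × E n => z.1) continuousAt_fst
    have h2 : Continuous (fun z : E n × E n => (inner ℝ z.1 (iot p q z.2) : ℝ)) :=
      continuous_fst.inner (iot_cont.comp continuous_snd)
    exact h1.sub h2.continuousAt
  have c2 : ContinuousAt (fun z : E n × E n => inner ℝ z.1 z.2 - t z.1) (u, x0) := by
    have h1 : ContinuousAt (fun z : E n × E n => t z.1) (u, x0) :=
      (tcont D hu).comp (f := fun z : E n × E n => z.1) continuousAt_fst
    have h2 : Continuous (fun z : E n × E n => (inner ℝ z.1 z.2 : ℝ)) :=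
      continuous_fst.inner continuous_snd
    exact h2.continuousAt.sub h1
  have e1 := c1.eventually (lt_mem_nhds (show η < t u - inner ℝ u (iot p q x0) by linarith))
  have e2 := c2.eventually (lt_mem_nhds (show η < inner ℝ u x0 - t u by linarith))
  have e12 := e1.and e2
  rw [nhds_prod_eq] at e12
  obtain ⟨Pa, hPa, Pb, hPb, hPab⟩ := Filter.eventually_prod_iff.1 e12
  obtain ⟨y, R, hR, hBK, hBU⟩ := exists_ball hK hx0 ((hmn.and (not_rr_nhds hK hx3)).and hPb)
  -- bounds on the forms at `v`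
  obtain ⟨C, hC, hCb⟩ : ∃ C : ℝ, 0 < C ∧ ∀ᶠ v in 𝓝 u,
      (inner ℝ p v - inner ℝ q v : ℝ) ≤ C ∧ (inner ℝ p v + inner ℝ q v : ℝ) ≤ C := by
    refine ⟨|(inner ℝ p u - inner ℝ q u : ℝ)| + |(inner ℝ p u + inner ℝ q u : ℝ)| + 1,
      by positivity, ?_⟩
    have c1 : ContinuousAt (fun y : E n => (inner ℝ p y - inner ℝ q y : ℝ)) u := by fun_prop
    have c2 : ContinuousAt (fun y : E n => (inner ℝ p y + inner ℝ q y : ℝ)) u := by fun_prop
    have a1 := le_abs_self (inner ℝ p u - inner ℝ q u : ℝ)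
    have a2 := le_abs_self (inner ℝ p u + inner ℝ q u : ℝ)
    have a3 := abs_nonneg (inner ℝ p u - inner ℝ q u : ℝ)
    have a4 := abs_nonneg (inner ℝ p u + inner ℝ q u : ℝ)
    have e1 := c1.eventually (gt_mem_nhds (show (inner ℝ p u - inner ℝ q u : ℝ) <
      |(inner ℝ p u - inner ℝ q u : ℝ)| + |(inner ℝ p u + inner ℝ q u : ℝ)| + 1 by linarith))
    have e2 := c2.eventually (gt_mem_nhds (show (inner ℝ p u + inner ℝ q u : ℝ) <
      |(inner ℝ p u - inner ℝ q u : ℝ)| + |(inner ℝ p u + inner ℝ q u : ℝ)| + 1 by linarith))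
    filter_upwards [e1, e2] with v h3 h4
    exact ⟨h3.le, h4.le⟩
  set μ := volume.real (ball y R) with hμ
  have hμpos : 0 < μ := by
    rw [hμ, measureReal_def]
    exact ENNReal.toReal_pos (measure_ball_pos volume y hR).ne' measure_ball_lt_top.ne
  set c' := min (η / C ^ 2) (m / C) with hc'
  have hc'pos : 0 < c' := lt_min (by positivity) (by positivity)
  have hlam := D.cs.lpos
  refine ⟨c' * μ / (2 * lam), by positivity, ?_⟩
  filter_upwards [hPa, hCb] with v hva hvC hvs
  have hw := ww_pos hvs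
  have hvs' := hvs
  unfold Sec at hvs'
  rw [abs_lt] at hvs'
  set w1 : ℝ := inner ℝ p v - inner ℝ q v with hw1
  set w2 : ℝ := inner ℝ p v + inner ℝ q v with hw2
  have hw1p : 0 < w1 := by rw [hw1]; linarith [hvs'.2]
  have hw2p : 0 < w2 := by rw [hw2]; linarith [hvs'.1]
  have hww : ww p q v = w1 * w2 := by unfold ww; rw [hw1, hw2]; ring
  have hmain := main_ineq D h hι hmono hvs (B := ball y R) hBK (fun x hx => (hBU hx).1.2)
  have hlow : ∀ x ∈ ball y R, c' * ww p q v ≤ PH p q v (t v) x := by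
    intro x hx
    obtain ⟨⟨⟨hx1, hx2⟩, -⟩, hxb⟩ := hBU hx
    have hab := hPab hva hxb
    have hab1 : η < t v - inner ℝ v (iot p q x) := hab.1
    have hab2 : η < inner ℝ v x - t v := hab.2
    have k1 : c' * ww p q v ≤ η := by
      rw [hww]
      have : c' ≤ η / C ^ 2 := min_le_left _ _
      have h5 : w1 * w2 ≤ C ^ 2 := by nlinarith [hvC.1, hvC.2]
      calc c' * (w1 * w2) ≤ η / C ^ 2 * C ^ 2 :=
            mul_le_mul this h5 (by positivity) (by positivity)
        _ = η := by field_simp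
    have k2 : c' * ww p q v ≤ m * w1 := by
      rw [hww]
      have : c' ≤ m / C := min_le_right _ _
      calc c' * (w1 * w2) ≤ m / C * (w1 * C) :=
            mul_le_mul this (mul_le_mul_of_nonneg_left hvC.2 hw1p.le) (by positivity)
              (by positivity)
        _ = m * w1 := by field_simp
    have k3 : c' * ww p q v ≤ m * w2 := by
      rw [hww]
      have : c' ≤ m / C := min_le_right _ _
      calc c' * (w1 * w2) ≤ m / C * (C * w2) :=
            mul_le_mul this (mul_le_mul_of_nonneg_right hvC.1 hw2p.le) (by positivity)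
              (by positivity)
        _ = m * w2 := by field_simp
    apply PH_lower h
    · positivity
    · have : m * w1 ≤ w1 * (inner ℝ p x - inner ℝ q x) := by
        rw [mul_comm m]; exact mul_le_mul_of_nonneg_left hx1 hw1p.le
      unfold AA
      linarith
    · have : m * w2 ≤ w2 * (inner ℝ p x + inner ℝ q x) := by
        rw [mul_comm m]; exact mul_le_mul_of_nonneg_left hx2 hw2p.le
      unfold BB
      linarith
    · have e1 : sv p q v (t v) x + (AA p q v x + BB p q v x) = inner ℝ v x - t v := by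
        unfold sv AA BB; ring
      have e2 : -sv p q v (t v) x + (AA p q v x + BB p q v x) = t v - inner ℝ v (iot p q x) := by
        rw [inner_iot]; unfold sv AA BB; ring
      have : |sv p q v (t v) x| ≤ AA p q v x + BB p q v x - η := by
        rw [abs_le]; constructor <;> linarith
      linarith
  have hint : IntegrableOn (PH p q v (t v)) (ball y R) :=
    (int_on hK.comp (PH_cont v _)).mono_set hBK
  have h6 := setIntegral_ge_of_const_le measurableSet_ball measure_ball_lt_top.ne hlow hint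
  rw [div_mul_eq_mul_div, div_le_iff₀ (by positivity)]
  rw [smul_eq_mul] at h6
  have h7 := h6.trans hmain
  rw [← hμ] at h7
  linarith

/-- A point of `K` on the hyperplane can be moved to the interior inside the hyperplane. -/
theorem move_int (D : Dat K δ lam X t) {u : E n} (hu : u ≠ 0) {x0 : E n} (hx0 : x0 ∈ K)
    (hx1 : (inner ℝ u x0 : ℝ) = t u) {U : Set (E n)} (hU : U ∈ 𝓝 x0) :
    ∃ (y : E n) (R : ℝ), (inner ℝ u y : ℝ) = t u ∧ 0 < R ∧ ball y R ⊆ K ∧ ball y R ⊆ U := by
  have hK := D.cs.cb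
  obtain ⟨z, hz, hzt⟩ := hyper_meets D hu
  have hc : ContinuousAt (fun ε : ℝ => (1 - ε) • x0 + ε • z) 0 := by fun_prop
  have hU' : interior U ∈ 𝓝 ((fun ε : ℝ => (1 - ε) • x0 + ε • z) 0) := by
    have : (fun ε : ℝ => (1 - ε) • x0 + ε • z) 0 = x0 := by simp
    rw [this]
    exact interior_mem_nhds.2 hU
  have h1 : ∀ᶠ ε in 𝓝[>] (0 : ℝ), (1 - ε) • x0 + ε • z ∈ interior U :=
    (hc.eventually hU').filter_mono nhdsWithin_le_nhds
  have h2 : ∀ᶠ ε in 𝓝[>] (0 : ℝ), ε ∈ Ioo (0 : ℝ) 1 := Ioo_mem_nhdsGT one_pos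
  obtain ⟨ε, hε, hε0, hε1⟩ := (h1.and h2).exists
  have h3 : (1 - ε) • x0 + ε • z ∈ interior K :=
    hK.conv.combo_self_interior_mem_interior hx0 hz (by linarith) hε0 (by ring)
  obtain ⟨R, hR, hb⟩ := Metric.isOpen_iff.1 (isOpen_interior.inter isOpen_interior) _ ⟨hε, h3⟩
  refine ⟨_, R, ?_, hR, fun z hz => interior_subset (hb hz).2, fun z hz => interior_subset (hb hz).1⟩
  rw [inner_add_right, inner_smul_right, inner_smul_right, hx1, hzt]; ring

/-- The part orthogonal to `p`, `q`. -/
noncomputable def oc (p q v : E n) : E n := v - (inner ℝ p v : ℝ) • p - (inner ℝ q v : ℝ) • q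

theorem oc_cont : Continuous (oc p q : E n → E n) := by
  unfold oc; fun_prop

theorem oc_cor {u : E n} (hC : Cor p q u) : oc p q u = u := by
  unfold oc
  rw [hC.1, hC.2]; simp

theorem inner_oc (v x : E n) : (inner ℝ (oc p q v) x : ℝ) =
    inner ℝ v x - inner ℝ p v * inner ℝ p x - inner ℝ q v * inner ℝ q x := by
  unfold oc
  rw [inner_sub_left, inner_sub_left, inner_smul_left, inner_smul_left]
  simp

/-- At the corner. -/
theorem lower_corner (D : Dat K δ lam X t) (h : ON p q) (hι : iot p q '' K = K)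
    (hmono : ∀ v, Sec p q v → supp K (rr p q v) ≤ supp K v) {u : E n} (hu : u ≠ 0)
    (hC : Cor p q u) (hPC : ¬ PC K t p q u) :
    ∃ c : ℝ, 0 < c ∧ ∀ᶠ v in 𝓝 u, Sec p q v → c * ww p q v ≤ supp K v - supp K (rr p q v) := by
  have hK := D.cs.cb
  unfold PC at hPC
  push Not at hPC
  obtain ⟨x0, hx0, hx0s, hx1, hx3⟩ := hPC
  rw [mem_rr_image h] at hx3
  obtain ⟨m, hm, hmn⟩ := sec_nhds hx0s
  obtain ⟨y, R, hy, hR, hBK, hBU⟩ := move_int D hu hx0 hx1 (hmn.and (not_rr_nhds hK hx3))
  obtain ⟨c1, η, hc1, hη, hslab⟩ := slab y hu hR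
  have hlam := D.cs.lpos
  refine ⟨c1 * m ^ 2 / 4 / (2 * lam), by positivity, ?_⟩
  have e1 : ∀ᶠ v in 𝓝 u, ‖oc p q v - u‖ < η := by
    have hc : ContinuousAt (fun v : E n => ‖oc p q v - u‖) u :=
      ((oc_cont.sub continuous_const).norm).continuousAt
    apply hc.eventually (gt_mem_nhds _)
    show ‖oc p q u - u‖ < η
    rw [oc_cor hC]; simpa using hη
  have e2 : ∀ᶠ v in 𝓝 u, |t v - inner ℝ u y| < η := by
    have hc : ContinuousAt (fun v : E n => |t v - inner ℝ u y|) u :=
      ((tcont D hu).sub continuousAt_const).abs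
    apply hc.eventually (gt_mem_nhds _)
    show |t u - inner ℝ u y| < η
    rw [hy]; simpa using hη
  have e3 : ∀ᶠ v in 𝓝 u, m / 2 * (inner ℝ p v - inner ℝ q v) < η := by
    have hc : ContinuousAt (fun v : E n => m / 2 * (inner ℝ p v - inner ℝ q v : ℝ)) u := by fun_prop
    apply hc.eventually (gt_mem_nhds _)
    show m / 2 * (inner ℝ p u - inner ℝ q u : ℝ) < η
    rw [hC.1, hC.2]; simpa using hη
  have e4 : ∀ᶠ v in 𝓝 u, m / 2 * (inner ℝ p v + inner ℝ q v) < η := by
    have hc : ContinuousAt (fun v : E n => m / 2 * (inner ℝ p v + inner ℝ q v : ℝ)) u := by fun_prop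
    apply hc.eventually (gt_mem_nhds _)
    show m / 2 * (inner ℝ p u + inner ℝ q u : ℝ) < η
    rw [hC.1, hC.2]; simpa using hη
  filter_upwards [e1, e2, e3, e4] with v h1 h2 h3 h4 hvs
  have hw := ww_pos hvs
  have hvs' := hvs
  unfold Sec at hvs'
  rw [abs_lt] at hvs'
  set w1 : ℝ := inner ℝ p v - inner ℝ q v with hw1
  set w2 : ℝ := inner ℝ p v + inner ℝ q v with hw2
  have hw1p : 0 < w1 := by rw [hw1]; linarith [hvs'.2]
  have hw2p : 0 < w2 := by rw [hw2]; linarith [hvs'.1]
  have hww : ww p q v = w1 * w2 := by unfold ww; rw [hw1, hw2]; ring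
  set A0 := m / 2 * w1 with hA0
  set B0 := m / 2 * w2 with hB0
  have hA0p : 0 < A0 := by positivity
  have hB0p : 0 < B0 := by positivity
  set S := ball y R ∩ {x : E n | |inner ℝ (oc p q v) x - t v| ≤ max A0 B0} with hS
  have hSK : S ⊆ K := inter_subset_left.trans hBK
  have hSm : MeasurableSet S := by
    apply measurableSet_ball.inter
    apply IsClosed.measurableSet
    exact isClosed_le (by fun_prop) continuous_const
  have hsl : c1 * max A0 B0 ≤ volume.real S :=
    hslab (oc p q v) (t v) (max A0 B0) h1 h2 (lt_max_of_lt_left hA0p) (max_lt h3 h4)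
  have hmain := main_ineq D h hι hmono hvs (B := S) hSK (fun x hx => (hBU hx.1).2)
  have hlow : ∀ x ∈ S, min A0 B0 ≤ PH p q v (t v) x := by
    intro x hx
    obtain ⟨⟨hx1, hx2⟩, -⟩ := hBU hx.1
    have hx1' : m ≤ inner ℝ p x - inner ℝ q x := hx1
    have hx2' : m ≤ inner ℝ p x + inner ℝ q x := hx2
    have hxs : |inner ℝ (oc p q v) x - t v| ≤ max A0 B0 := hx.2
    have hA : A0 ≤ AA p q v x := by
      have : m * w1 ≤ w1 * (inner ℝ p x - inner ℝ q x) := by
        rw [mul_comm m]; exact mul_le_mul_of_nonneg_left hx1' hw1p.le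
      unfold AA
      rw [hA0]; linarith
    have hB : B0 ≤ BB p q v x := by
      have : m * w2 ≤ w2 * (inner ℝ p x + inner ℝ q x) := by
        rw [mul_comm m]; exact mul_le_mul_of_nonneg_left hx2' hw2p.le
      unfold BB
      rw [hB0]; linarith
    have e5 : sv p q v (t v) x = inner ℝ (oc p q v) x - t v := by
      rw [inner_oc]; unfold sv; ring
    have m1 : min A0 B0 ≤ A0 := min_le_left _ _
    have m2 : min A0 B0 ≤ B0 := min_le_right _ _
    have m3 : max A0 B0 + min A0 B0 = A0 + B0 := max_add_min _ _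
    apply PH_lower h
    · exact (lt_min hA0p hB0p).le
    · linarith
    · linarith
    · rw [e5]; linarith
  have hint : IntegrableOn (PH p q v (t v)) S :=
    (int_on hK.comp (PH_cont v _)).mono_set hSK
  have hfin : volume S ≠ ⊤ :=
    ((measure_mono inter_subset_left).trans_lt measure_ball_lt_top).ne
  have h6 := setIntegral_ge_of_const_le hSm hfin hlow hint
  rw [smul_eq_mul] at h6
  have h7 : c1 * max A0 B0 * min A0 B0 ≤ 2 * lam * (supp K v - supp K (rr p q v)) :=
    (mul_le_mul_of_nonneg_right hsl (lt_min hA0p hB0p).le).trans (h6.trans hmain)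
  have h8 : c1 * max A0 B0 * min A0 B0 = c1 * m ^ 2 / 4 * ww p q v := by
    rw [mul_assoc, max_mul_min, hww, hA0, hB0]; ring
  rw [h8] at h7
  rw [div_mul_eq_mul_div, div_le_iff₀ (by positivity)]
  linarith

/-- (LOW) Strict positivity where `PP` (or `PC`) fails. -/
theorem lower : S_lower := by
  intro n K δ lam X t p q D h hι hmono u hu hCS hcase
  rcases hcase with ⟨-, hPP⟩ | ⟨hC, hPC⟩
  · exact lower_noncorner D h hι hmono hu hPP
  · exact lower_corner D h hι hmono hu hC hPC

end Pool.Agent.Helper56.SY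

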