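import Pool.Agent.Helper73.SY.Stmts
import Pool.Agent.Helper65.LR.Rh

/-!
# Measure of a thin slab in a ball, and the maps `rr`, `iot` (project MP_a2630c_SY)
-/

open MeasureTheory Set Metric Real Filter Topology
open scoped RealInnerProductSpace ENNReal
open Pool.Agent.Helper16.Buoy (E cap IsEllipsoid Homothetic buoyancyBody)
open Pool.Agent.Helper73.HV (supp)
open Pool.Agent.Helper73.LR (CB vol GG Sol aff)

namespace Pool.Agent.Helper56.SY

open Pool.Agent.Helper73.SY Pool.Agent.Helper65.LR Pool.Agent.Helper51.HV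

variable {n : ℕ}

/-- A slab of width `ε` through a ball has measure at least `c ε`. -/
theorem slab (y : E n) {u : E n} (hu : u ≠ 0) {R : ℝ} (hR : 0 < R) :
    ∃ c η : ℝ, 0 < c ∧ 0 < η ∧ ∀ (v : E n) (τ ε : ℝ), ‖v - u‖ < η → |τ - inner ℝ u y| < η →
      0 < ε → ε < η →
      c * ε ≤ volume.real (ball y R ∩ {x : E n | |inner ℝ v x - τ| ≤ ε}) := by
  have ha : 0 < ‖u‖ := norm_pos_iff.2 hu
  set a := ‖u‖ with hadef
  set Y := ‖y‖ + 2 with hY
  have hYpos : 0 < Y := by positivity
  set η := min (a / 2) (a * R / (8 * Y)) with hη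
  have hηpos : 0 < η := by
    rw [hη]; positivity
  have hη1 : η ≤ a / 2 := min_le_left _ _
  have hη2 : η * (8 * Y) ≤ a * R := by
    have : η ≤ a * R / (8 * Y) := min_le_right _ _
    rwa [le_div_iff₀ (by positivity)] at this
  set ρ := R / 8 with hρ
  have hρpos : 0 < ρ := by positivity
  set M := 3 / 2 * a * ρ + η * Y with hM
  have hMpos : 0 < M := by positivity
  have hVpos : 0 < volume.real (ball y ρ) := by
    rw [measureReal_def]
    exact ENNReal.toReal_pos (measure_ball_pos volume y hρpos).ne' measure_ball_lt_top.ne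
  refine ⟨volume.real (ball y ρ) / (M + 3 * η), η, by positivity, hηpos, ?_⟩
  intro v τ ε hv hτ hε hεη
  have hv1 : a / 2 ≤ ‖v‖ := by
    have h1 : a ≤ ‖v‖ + ‖v - u‖ := by
      have := norm_le_norm_add_norm_sub' u v
      rwa [norm_sub_rev] at this
    linarith
  have hv2 : ‖v‖ ≤ 3 / 2 * a := by
    have h1 : ‖v‖ ≤ ‖u‖ + ‖v - u‖ := norm_le_norm_add_norm_sub' v u
    linarith
  have hvpos : 0 < ‖v‖ := by linarith
  set S := ball y R ∩ {x : E n | |inner ℝ v x - τ| ≤ ε} with hS
  set w : ℤ → E n := fun k => (2 * ε * (k : ℝ) / ‖v‖ ^ 2) • v with hw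
  set N : ℕ := ⌈M / (2 * ε)⌉₊ with hN
  -- covering
  have hcov : ball y ρ ⊆ ⋃ k ∈ Finset.Icc (-(N : ℤ)) N, (fun x => x + -(w k)) ⁻¹' S := by
    intro x hx
    have hx1 : ‖x - y‖ < ρ := by simpa [dist_eq_norm] using hx
    have hb : |inner ℝ v x - τ| + ε ≤ M := by
      have h1 : (inner ℝ v x - τ : ℝ) = inner ℝ v (x - y) + inner ℝ (v - u) y
          + (inner ℝ u y - τ) := by
        rw [inner_sub_right, inner_sub_left]; ring
      have h2 : |(inner ℝ v (x - y) : ℝ)| ≤ 3 / 2 * a * ρ := by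
        refine (abs_real_inner_le_norm _ _).trans ?_
        exact mul_le_mul hv2 hx1.le (norm_nonneg _) (by positivity)
      have h3 : |(inner ℝ (v - u) y : ℝ)| ≤ η * ‖y‖ := by
        refine (abs_real_inner_le_norm _ _).trans ?_
        exact mul_le_mul_of_nonneg_right hv.le (norm_nonneg _)
      have h4 : |(inner ℝ u y - τ : ℝ)| ≤ η := by
        rw [abs_sub_comm]; exact hτ.le
      rw [h1]
      have h5 := abs_add_le (inner ℝ v (x - y) + inner ℝ (v - u) y : ℝ) (inner ℝ u y - τ)
      have h6 := abs_add_le (inner ℝ v (x - y) : ℝ) (inner ℝ (v - u) y)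
      rw [hM, hY]
      nlinarith [hεη.le]
    set k : ℤ := round ((inner ℝ v x - τ) / (2 * ε)) with hk
    have hk1 : |(inner ℝ v x - τ) / (2 * ε) - k| ≤ 1 / 2 := abs_sub_round _
    have hk2 : |inner ℝ v x - τ - 2 * ε * k| ≤ ε := by
      have h1 : (inner ℝ v x - τ - 2 * ε * k : ℝ) = 2 * ε * ((inner ℝ v x - τ) / (2 * ε) - k) := by
        field_simp
      rw [h1, abs_mul, abs_of_pos (by positivity : 0 < 2 * ε)]
      nlinarith
    have hk3 : |2 * ε * (k : ℝ)| ≤ M := by
      have h1 : (2 * ε * (k : ℝ)) = (inner ℝ v x - τ) - (inner ℝ v x - τ - 2 * ε * k) := by ring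
      rw [h1]
      have := abs_sub (inner ℝ v x - τ : ℝ) (inner ℝ v x - τ - 2 * ε * k)
      linarith
    have hk4 : |(k : ℝ)| ≤ N := by
      rw [abs_mul, abs_of_pos (by positivity : 0 < 2 * ε)] at hk3
      have h1 : |(k : ℝ)| ≤ M / (2 * ε) := by
        rw [le_div_iff₀ (by positivity)]
        linarith
      exact h1.trans (Nat.le_ceil _)
    have hk5 : k ∈ Finset.Icc (-(N : ℤ)) N := by
      rw [Finset.mem_Icc]
      rw [abs_le] at hk4
      constructor
      · exact_mod_cast hk4.1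
      · exact_mod_cast hk4.2
    refine mem_iUnion₂.2 ⟨k, hk5, ?_⟩
    show x + -(w k) ∈ S
    have hwv : (inner ℝ v (w k) : ℝ) = 2 * ε * k := by
      rw [hw]
      simp only [inner_smul_right, real_inner_self_eq_norm_sq]
      field_simp
    have hwn : ‖w k‖ ≤ 2 * M / a := by
      rw [hw]
      simp only [norm_smul, norm_div, Real.norm_eq_abs, norm_pow, abs_norm]
      have h1 : |2 * ε * (k : ℝ)| / ‖v‖ ^ 2 * ‖v‖ = |2 * ε * (k : ℝ)| / ‖v‖ := by
        field_simp
      rw [h1]
      calc |2 * ε * (k : ℝ)| / ‖v‖ ≤ M / (a / 2) :=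
            div_le_div₀ hMpos.le hk3 (by positivity) hv1
        _ = 2 * M / a := by field_simp
    refine ⟨?_, ?_⟩
    · rw [mem_ball, dist_eq_norm]
      have h1 : x + -(w k) - y = (x - y) - w k := by abel
      rw [h1]
      have h2 := norm_sub_le (x - y) (w k)
      have h3 : 2 * M / a ≤ 3 * ρ + R / 4 := by
        rw [div_le_iff₀ ha, hM]
        nlinarith
      rw [hρ] at *
      linarith
    · show |(inner ℝ v (x + -(w k)) : ℝ) - τ| ≤ ε
      rw [inner_add_right, inner_neg_right, hwv]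
      have h1 : (inner ℝ v x + -(2 * ε * (k : ℝ)) - τ : ℝ) = inner ℝ v x - τ - 2 * ε * k := by ring
      rw [h1]
      exact hk2
  have hSfin : volume S ≠ ⊤ :=
    ((measure_mono inter_subset_left).trans_lt measure_ball_lt_top).ne
  have hle : volume.real (ball y ρ) ≤ (2 * N + 1) * volume.real S := by
    have h1 : volume (ball y ρ) ≤ ∑ k ∈ Finset.Icc (-(N : ℤ)) N, volume S := by
      refine (measure_mono hcov).trans ((measure_biUnion_finset_le _ _).trans ?_)
      apply Finset.sum_le_sum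
      intro k _
      exact (measure_preimage_add_right volume (-(w k)) S).le
    rw [Finset.sum_const, nsmul_eq_mul] at h1
    have h2 : (Finset.Icc (-(N : ℤ)) N).card = 2 * N + 1 := by
      rw [Int.card_Icc]; omega
    rw [h2] at h1
    have h3 := ENNReal.toReal_mono (ENNReal.mul_ne_top (ENNReal.natCast_ne_top _) hSfin) h1
    rw [ENNReal.toReal_mul, ENNReal.toReal_natCast] at h3
    rw [measureReal_def, measureReal_def]
    push_cast at h3
    exact h3
  have hN1 : (2 * (N : ℝ) + 1) * ε ≤ M + 3 * η := by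
    have h1 : (N : ℝ) < M / (2 * ε) + 1 := Nat.ceil_lt_add_one (by positivity)
    have h2 : (2 * (N : ℝ) + 1) * ε ≤ (2 * (M / (2 * ε) + 1) + 1) * ε :=
      mul_le_mul_of_nonneg_right (by linarith) hε.le
    have h3 : (2 * (M / (2 * ε) + 1) + 1) * ε = M + 3 * ε := by
      field_simp; ring
    linarith
  rw [div_mul_eq_mul_div, div_le_iff₀ (by positivity)]
  have hSnn : 0 ≤ volume.real S := measureReal_nonneg
  calc volume.real (ball y ρ) * ε ≤ (2 * N + 1) * volume.real S * ε :=
        mul_le_mul_of_nonneg_right hle hε.le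
    _ = volume.real S * ((2 * N + 1) * ε) := by ring
    _ ≤ volume.real S * (M + 3 * η) := mul_le_mul_of_nonneg_left hN1 hSnn

/-! ### The maps -/

variable {p q : E n}

theorem pp_one (h : ON p q) : (inner ℝ p p : ℝ) = 1 := by
  rw [real_inner_self_eq_norm_sq, h.p1]; norm_num

theorem qq_one (h : ON p q) : (inner ℝ q q : ℝ) = 1 := by
  rw [real_inner_self_eq_norm_sq, h.q1]; norm_num

theorem qp_zero (h : ON p q) : (inner ℝ q p : ℝ) = 0 := by
  rw [real_inner_comm]; exact h.pq

theorem inner_rr (v x : E n) : (inner ℝ v (rr p q x) : ℝ) =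
    inner ℝ v x - (inner ℝ p x - inner ℝ q x) * (inner ℝ p v - inner ℝ q v) := by
  unfold rr
  rw [inner_sub_right, inner_smul_right, inner_sub_left, inner_sub_right,
    real_inner_comm p v, real_inner_comm q v]

theorem inner_iot (v x : E n) : (inner ℝ v (iot p q x) : ℝ) =
    inner ℝ v x - 2 * inner ℝ p x * inner ℝ p v - 2 * inner ℝ q x * inner ℝ q v := by
  unfold iot
  rw [inner_sub_right, inner_sub_right, inner_smul_right, inner_smul_right,
    real_inner_comm p v, real_inner_comm q v]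

theorem p_rr (h : ON p q) (x : E n) : (inner ℝ p (rr p q x) : ℝ) = inner ℝ q x := by
  rw [inner_rr, pp_one h, qp_zero h]; ring

theorem q_rr (h : ON p q) (x : E n) : (inner ℝ q (rr p q x) : ℝ) = inner ℝ p x := by
  rw [inner_rr, h.pq, qq_one h]; ring

theorem p_iot (h : ON p q) (x : E n) : (inner ℝ p (iot p q x) : ℝ) = -inner ℝ p x := by
  rw [inner_iot, pp_one h, qp_zero h]; ring

theorem q_iot (h : ON p q) (x : E n) : (inner ℝ q (iot p q x) : ℝ) = -inner ℝ q x := by
  rw [inner_iot, qq_one h, h.pq]; ring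

theorem rr_symm (v x : E n) : (inner ℝ (rr p q v) x : ℝ) = inner ℝ v (rr p q x) := by
  rw [← real_inner_comm, inner_rr, inner_rr, real_inner_comm]; ring

theorem iot_symm (v x : E n) : (inner ℝ (iot p q v) x : ℝ) = inner ℝ v (iot p q x) := by
  rw [← real_inner_comm, inner_iot, inner_iot, real_inner_comm]; ring

theorem rr_rr (h : ON p q) (x : E n) : rr p q (rr p q x) = x := by
  conv_lhs => unfold rr
  have h1 : (inner ℝ (p - q) (x - (inner ℝ (p - q) x : ℝ) • (p - q)) : ℝ) = -inner ℝ (p - q) x := by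
    have h2 : (inner ℝ (p - q) (p - q) : ℝ) = 2 := by
      rw [inner_sub_left, inner_sub_right, inner_sub_right, pp_one h, qq_one h, h.pq, qp_zero h]
      norm_num
    rw [inner_sub_right, inner_smul_right, h2]; ring
  rw [h1]
  simp

theorem iot_iot (h : ON p q) (x : E n) : iot p q (iot p q x) = x := by
  have h1 := p_iot h x
  have h2 := q_iot h x
  have h3 : iot p q (iot p q x) = iot p q x - (2 * inner ℝ p (iot p q x)) • p
    - (2 * inner ℝ q (iot p q x)) • q := rfl
  rw [h3, h1, h2]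
  unfold iot
  module

theorem iot_rr (h : ON p q) (x : E n) : iot p q (rr p q x) = rr p q (iot p q x) := by
  have h3 : iot p q (rr p q x) = rr p q x - (2 * inner ℝ p (rr p q x)) • p
    - (2 * inner ℝ q (rr p q x)) • q := rfl
  have h4 : rr p q (iot p q x) = iot p q x - (inner ℝ (p - q) (iot p q x) : ℝ) • (p - q) := rfl
  rw [h3, h4, p_rr h, q_rr h, inner_sub_left, p_iot h, q_iot h]
  unfold iot rr
  rw [inner_sub_left]
  module

theorem rr_add (x y : E n) : rr p q (x + y) = rr p q x + rr p q y := by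
  unfold rr; rw [inner_add_right]; module

theorem rr_smul (c : ℝ) (x : E n) : rr p q (c • x) = c • rr p q x := by
  unfold rr; rw [inner_smul_right]; module

theorem iot_add (x y : E n) : iot p q (x + y) = iot p q x + iot p q y := by
  unfold iot; rw [inner_add_right, inner_add_right]; module

theorem iot_smul (c : ℝ) (x : E n) : iot p q (c • x) = c • iot p q x := by
  unfold iot; rw [inner_smul_right, inner_smul_right]; module

theorem norm_rr (h : ON p q) (x : E n) : ‖rr p q x‖ = ‖x‖ := by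
  have h1 : ‖rr p q x‖ ^ 2 = ‖x‖ ^ 2 := by
    rw [← real_inner_self_eq_norm_sq, ← real_inner_self_eq_norm_sq, rr_symm, rr_rr h]
  exact (pow_left_inj₀ (norm_nonneg _) (norm_nonneg _) two_ne_zero).1 h1

theorem norm_iot (h : ON p q) (x : E n) : ‖iot p q x‖ = ‖x‖ := by
  have h1 : ‖iot p q x‖ ^ 2 = ‖x‖ ^ 2 := by
    rw [← real_inner_self_eq_norm_sq, ← real_inner_self_eq_norm_sq, iot_symm, iot_iot h]
  exact (pow_left_inj₀ (norm_nonneg _) (norm_nonneg _) two_ne_zero).1 h1

theorem invol_iso {T : E n → E n} (hadd : ∀ x y, T (x + y) = T x + T y)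
    (hsm : ∀ (c : ℝ) x, T (c • x) = c • T x) (hinv : ∀ x, T (T x) = x)
    (hnorm : ∀ x, ‖T x‖ = ‖x‖) : ∃ e : E n ≃ₗᵢ[ℝ] E n, ∀ x, e x = T x := by
  let l : E n →ₗ[ℝ] E n := { toFun := T, map_add' := hadd, map_smul' := hsm }
  let e : E n ≃ₗ[ℝ] E n := LinearEquiv.ofInvolutive l hinv
  exact ⟨{ e with norm_map' := hnorm }, fun x => rfl⟩

theorem rr_iso (h : ON p q) : ∃ e : E n ≃ₗᵢ[ℝ] E n, ∀ x, e x = rr p q x :=
  invol_iso rr_add rr_smul (rr_rr h) (norm_rr h)

theorem iot_iso (h : ON p q) : ∃ e : E n ≃ₗᵢ[ℝ] E n, ∀ x, e x = iot p q x :=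
  invol_iso iot_add iot_smul (iot_iot h) (norm_iot h)

theorem rr_cont : Continuous (rr p q : E n → E n) := by
  unfold rr; fun_prop

theorem iot_cont : Continuous (iot p q : E n → E n) := by
  unfold iot; fun_prop

/-- Change of variables by an isometry that preserves a set. -/
theorem int_iso (e : E n ≃ₗᵢ[ℝ] E n) {S : Set (E n)} (hS : ∀ x, e x ∈ S ↔ x ∈ S) (f : E n → ℝ) :
    ∫ x in S, f (e x) = ∫ x in S, f x := by
  have h1 := e.measurePreserving.setIntegral_preimage_emb
    e.toHomeomorph.measurableEmbedding f S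
  have h2 : e ⁻¹' S = S := by
    ext x; exact hS x
  rw [h2] at h1
  exact h1

theorem int_rr (h : ON p q) {S : Set (E n)} (hS : ∀ x, rr p q x ∈ S ↔ x ∈ S) (f : E n → ℝ) :
    ∫ x in S, f (rr p q x) = ∫ x in S, f x := by
  obtain ⟨e, he⟩ := rr_iso h
  have := int_iso e (S := S) (fun x => by rw [he]; exact hS x) f
  simpa only [he] using this

theorem int_iot (h : ON p q) {S : Set (E n)} (hS : ∀ x, iot p q x ∈ S ↔ x ∈ S) (f : E n → ℝ) :
    ∫ x in S, f (iot p q x) = ∫ x in S, f x := by
  obtain ⟨e, he⟩ := iot_iso h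
  have := int_iso e (S := S) (fun x => by rw [he]; exact hS x) f
  simpa only [he] using this

theorem mem_iot (h : ON p q) {K : Set (E n)} (hK : iot p q '' K = K) (x : E n) :
    iot p q x ∈ K ↔ x ∈ K := by
  constructor
  · intro hx
    rw [← hK]
    exact ⟨_, hx, iot_iot h x⟩
  · intro hx
    rw [← hK]
    exact ⟨x, hx, rfl⟩

theorem supp_iot (h : ON p q) {K : Set (E n)} (hK : iot p q '' K = K) (v : E n) :
    supp K (iot p q v) = supp K v := by
  unfold supp
  have h1 : (fun x => (inner ℝ (iot p q v) x : ℝ)) '' K = (fun x => (inner ℝ v x : ℝ)) '' K := by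
    conv_rhs => rw [← hK]
    rw [image_image]
    apply image_congr
    intro x _
    exact iot_symm v x
  rw [h1]

end Pool.Agent.Helper56.SY
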