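import Pool.Agent.Helper56.SY.Low

/-!
# Positivity at `ε = 0` (project MP_a2630c_SY, module STA)
-/

open MeasureTheory Set Metric Real Filter Topology
open scoped RealInnerProductSpace ENNReal
open Pool.Agent.Helper16.Buoy (E cap IsEllipsoid Homothetic buoyancyBody)
open Pool.Agent.Helper73.HV (supp)
open Pool.Agent.Helper73.LR (CB vol GG Sol aff)

namespace Pool.Agent.Helper56.SY

open Pool.Agent.Helper73.SY Pool.Agent.Helper65.LR Pool.Agent.Helper51.HV

variable {n : ℕ} {K : Set (E n)} {δ lam : ℝ} {X : E n → E n} {t : E n → ℝ} {p q : E n}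

theorem supp_add_le (hK : IsCompact K) (hne : K.Nonempty) (x y : E n) :
    supp K (x + y) ≤ supp K x + supp K y := by
  obtain ⟨z, hz, hz'⟩ := (supp_greatest hK hne (x + y)).1
  have h1 : (inner ℝ (x + y) z : ℝ) = supp K (x + y) := hz'
  rw [← h1, inner_add_left]
  exact add_le_add (le_supp hK hz x) (le_supp hK hz y)

theorem supp_cont (hK : IsCompact K) (hne : K.Nonempty) : Continuous (supp K) := by
  obtain ⟨C, hC⟩ := hK.isBounded.exists_norm_le
  have hC0 : 0 ≤ C := by
    obtain ⟨x, hx⟩ := hne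
    exact (norm_nonneg x).trans (hC x hx)
  apply LipschitzWith.continuous (K := ⟨C, hC0⟩)
  apply LipschitzWith.of_le_add_mul
  intro x y
  obtain ⟨z, hz, hz'⟩ := (supp_greatest hK hne x).1
  have h1 : (inner ℝ x z : ℝ) = supp K x := hz'
  rw [← h1]
  have h2 : (inner ℝ x z : ℝ) = inner ℝ y z + inner ℝ (x - y) z := by rw [inner_sub_left]; ring
  rw [h2, dist_eq_norm]
  have h3 := le_supp hK hz y
  have h4 : (inner ℝ (x - y) z : ℝ) ≤ C * ‖x - y‖ := by
    refine (real_inner_le_norm _ _).trans ?_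
    rw [mul_comm]
    exact mul_le_mul_of_nonneg_right (hC z hz) (norm_nonneg _)
  show _ ≤ supp K y + C * ‖x - y‖
  linarith

theorem supp_zero (hK : IsCompact K) (hne : K.Nonempty) : supp K (0 : E n) = 0 := by
  have := supp_smul hK hne (le_refl (0 : ℝ)) (0 : E n)
  simpa using this

theorem gg_zero (v : E n) : gg 0 q v = oc p q v + (inner ℝ p v : ℝ) • p := by
  unfold gg oc; module

theorem gg_zero_rr (h : ON p q) (v : E n) :
    gg 0 q (rr p q v) = oc p q v + (inner ℝ q v : ℝ) • p := by
  unfold gg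
  rw [q_rr h]
  unfold rr oc
  rw [inner_sub_left]
  module

theorem p_oc (h : ON p q) (v : E n) : (inner ℝ p (oc p q v) : ℝ) = 0 := by
  rw [real_inner_comm, inner_oc, pp_one h, qp_zero h, real_inner_comm]; ring

theorem q_oc (h : ON p q) (v : E n) : (inner ℝ q (oc p q v) : ℝ) = 0 := by
  rw [real_inner_comm, inner_oc, qq_one h, h.pq, real_inner_comm]; ring

theorem iot_oc (h : ON p q) (v : E n) (a : ℝ) :
    iot p q (oc p q v + a • p) = oc p q v + (-a) • p := by
  unfold iot
  rw [inner_add_right, inner_add_right, p_oc h, q_oc h, inner_smul_right, inner_smul_right,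
    pp_one h, qp_zero h]
  module

/-- `φ` is even. -/
theorem phi_even (h : ON p q) (hι : iot p q '' K = K) (v : E n) (a : ℝ) :
    supp K (oc p q v + (-a) • p) = supp K (oc p q v + a • p) := by
  rw [← iot_oc h, supp_iot h hι]

theorem phi_abs (h : ON p q) (hι : iot p q '' K = K) (v : E n) (a : ℝ) :
    supp K (oc p q v + a • p) = supp K (oc p q v + |a| • p) := by
  rcases le_total 0 a with ha | ha
  · rw [abs_of_nonneg ha]
  · rw [abs_of_nonpos ha, phi_even h hι]

/-- Convexity along the ray. -/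
theorem phi_conv (hK : CB K) (w : E n) {a b : ℝ} (ha : 0 ≤ a) (hab : a ≤ b) (hb : 0 < b) :
    (1 - a / b) * (supp K (w + b • p) - supp K w) ≤ supp K (w + b • p) - supp K (w + a • p) := by
  have hne : K.Nonempty := hK.int.mono interior_subset
  have h1 : w + a • p = (1 - a / b) • w + (a / b) • (w + b • p) := by
    have h2 : a = a / b * b := by field_simp
    have h3 : (a / b) • (w + b • p) = (a / b) • w + a • p := by
      rw [smul_add, smul_smul, ← h2]
    rw [h3]; module
  have h4 : 0 ≤ 1 - a / b := by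
    rw [sub_nonneg, div_le_one hb]; exact hab
  have h5 : 0 ≤ a / b := by positivity
  have h6 := supp_add_le hK.comp hne ((1 - a / b) • w) ((a / b) • (w + b • p))
  rw [← h1, supp_smul hK.comp hne h4, supp_smul hK.comp hne h5] at h6
  linarith

/-- From the estimate `φ(b) - φ(0) ≥ c b²` to the conclusion. -/
theorem start_of (D : Dat K δ lam X t) (h : ON p q) (hι : iot p q '' K = K) {u : E n} {c0 : ℝ}
    (hc0 : 0 < c0)
    (hev : ∀ᶠ v in 𝓝 u, Sec p q v → c0 * (inner ℝ p v : ℝ) ^ 2 ≤
      supp K (oc p q v + (inner ℝ p v : ℝ) • p) - supp K (oc p q v)) :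
    ∃ c : ℝ, 0 < c ∧ ∀ᶠ v in 𝓝 u, Sec p q v → c * ww p q v ≤ DD (supp K) p q 0 v := by
  refine ⟨c0 / 2, by positivity, ?_⟩
  filter_upwards [hev] with v hv hvs
  have hv' := hv hvs
  have hvs' := hvs
  unfold Sec at hvs'
  have hb : 0 < (inner ℝ p v : ℝ) := (abs_nonneg _).trans_lt hvs'
  set b : ℝ := inner ℝ p v with hbdef
  set a : ℝ := |(inner ℝ q v : ℝ)| with ha
  have ha0 : 0 ≤ a := abs_nonneg _
  have h1 : DD (supp K) p q 0 v = supp K (oc p q v + b • p) - supp K (oc p q v + a • p) := by
    unfold DD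
    rw [gg_zero (p := p), gg_zero_rr h, phi_abs h hι v (inner ℝ q v : ℝ)]
  have h2 := phi_conv D.cs.cb (p := p) (oc p q v) ha0 hvs'.le hb
  have h3 : ww p q v = b ^ 2 - a ^ 2 := by
    unfold ww
    rw [ha, sq_abs]
  have h4 : 0 ≤ 1 - a / b := by
    rw [sub_nonneg, div_le_one hb]; exact hvs'.le
  have h5 : (1 - a / b) * (c0 * b ^ 2) ≤ DD (supp K) p q 0 v := by
    rw [h1]
    exact (mul_le_mul_of_nonneg_left hv' h4).trans h2
  have h6 : (1 - a / b) * (c0 * b ^ 2) = c0 * (b * (b - a)) := by
    field_simp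
  rw [h6] at h5
  have h7 : b ^ 2 - a ^ 2 ≤ 2 * (b * (b - a)) := by nlinarith
  rw [h3]
  nlinarith

/-- Away from the corner. -/
theorem start_noncorner (D : Dat K δ lam X t) (h : ON p q) (hι : iot p q '' K = K) {u : E n}
    (hup : 0 < (inner ℝ p u : ℝ)) :
    ∃ c : ℝ, 0 < c ∧ ∀ᶠ v in 𝓝 u, Sec p q v → c * (inner ℝ p v : ℝ) ^ 2 ≤
      supp K (oc p q v + (inner ℝ p v : ℝ) • p) - supp K (oc p q v) := by
  have hK := D.cs.cb
  have hne : K.Nonempty := hK.int.mono interior_subset
  set b : ℝ := inner ℝ p u with hb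
  have hp0 : p ≠ 0 := by
    rintro rfl
    have := h.p1
    simp at this
  have hubp : oc p q u + b • p ≠ 0 := by
    intro h0
    have h1 : (inner ℝ p (oc p q u + b • p) : ℝ) = 0 := by rw [h0]; simp
    rw [inner_add_right, p_oc h, inner_smul_right, pp_one h] at h1
    linarith
  -- strict inequality at `u`
  have hst : 0 < supp K (oc p q u + b • p) - supp K (oc p q u) := by
    by_contra hcon
    push Not at hcon
    by_cases hu0 : oc p q u = 0
    · rw [hu0, zero_add, supp_smul hK.comp hne hup.le, supp_zero hK.comp hne, sub_zero] at hcon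
      have h1 : supp K (-p) = supp K p := by
        have h2 : iot p q p = -p := by
          unfold iot
          rw [pp_one h, qp_zero h]; module
        rw [← h2, supp_iot h hι]
      have h2 := D.tlo p hp0
      have h3 := D.tup p hp0
      rw [h1] at h2
      have h4 : 0 < supp K p := by linarith
      have := mul_pos hup h4
      linarith
    · -- the support point of `oc u`
      have h1 := D.Xsup _ hu0
      have hmem := D.Xmem _ hu0
      have h2 : (inner ℝ (oc p q u + b • p) (X (oc p q u)) : ℝ) ≤ supp K (oc p q u + b • p) :=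
        le_supp hK.comp hmem _
      have h3 : (inner ℝ (oc p q u + (-b) • p) (X (oc p q u)) : ℝ) ≤
          supp K (oc p q u + b • p) := by
        rw [← phi_even h hι]; exact le_supp hK.comp hmem _
      rw [inner_add_left, inner_smul_left] at h2 h3
      simp only [conj_trivial] at h2 h3
      have h4 : (inner ℝ (oc p q u + b • p) (X (oc p q u)) : ℝ) = supp K (oc p q u + b • p) := by
        rw [inner_add_left, inner_smul_left]
        simp only [conj_trivial]
        linarith
      obtain ⟨s, hs, hse⟩ := D.nor _ _ _ hu0 hubp hmem h1 h4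
      have h5 : (inner ℝ p (oc p q u + b • p) : ℝ) = inner ℝ p (s • oc p q u) := by rw [hse]
      rw [inner_add_right, p_oc h, inner_smul_right, inner_smul_right, pp_one h, p_oc h] at h5
      linarith
  set c0 := supp K (oc p q u + b • p) - supp K (oc p q u) with hc0
  refine ⟨c0 / 2 / (b + 1) ^ 2, by positivity, ?_⟩
  have hsc := supp_cont hK.comp hne
  have hcon : ContinuousAt (fun v : E n => supp K (oc p q v + (inner ℝ p v : ℝ) • p) -
      supp K (oc p q v)) u := by
    have c1 : Continuous fun v : E n => oc p q v + (inner ℝ p v : ℝ) • p :=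
      oc_cont.add (by fun_prop)
    exact ((hsc.comp c1).sub (hsc.comp oc_cont)).continuousAt
  have e1 : ∀ᶠ v in 𝓝 u, c0 / 2 < supp K (oc p q v + (inner ℝ p v : ℝ) • p) -
      supp K (oc p q v) := by
    apply hcon.eventually (lt_mem_nhds _)
    show c0 / 2 < supp K (oc p q u + (inner ℝ p u : ℝ) • p) - supp K (oc p q u)
    linarith
  have e2 : ∀ᶠ v in 𝓝 u, (inner ℝ p v : ℝ) < b + 1 := by
    have c1 : ContinuousAt (fun v : E n => (inner ℝ p v : ℝ)) u := by fun_prop
    apply c1.eventually (gt_mem_nhds _)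
    show (inner ℝ p u : ℝ) < b + 1
    linarith
  filter_upwards [e1, e2] with v h1 h2 hvs
  unfold Sec at hvs
  have hb : 0 < (inner ℝ p v : ℝ) := (abs_nonneg _).trans_lt hvs
  refine le_trans ?_ h1.le
  rw [div_mul_eq_mul_div, div_le_iff₀ (by positivity)]
  apply mul_le_mul_of_nonneg_left _ (by positivity)
  exact pow_le_pow_left₀ hb.le h2.le 2

/-- At the corner. -/
theorem start_corner (D : Dat K δ lam X t) (h : ON p q) (hι : iot p q '' K = K) {u : E n}
    (hu : u ≠ 0) (hC : Cor p q u) :
    ∃ c : ℝ, 0 < c ∧ ∀ᶠ v in 𝓝 u, Sec p q v → c * (inner ℝ p v : ℝ) ^ 2 ≤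
      supp K (oc p q v + (inner ℝ p v : ℝ) • p) - supp K (oc p q v) := by
  have hK := D.cs.cb
  have hne : K.Nonempty := hK.int.mono interior_subset
  have hup : (inner ℝ u p : ℝ) = 0 := by rw [real_inner_comm]; exact hC.1
  -- a point of `K` on the hyperplane with nonzero `p`-component
  obtain ⟨x0, hx0, hx1, hx2⟩ : ∃ x0 ∈ K, (inner ℝ u x0 : ℝ) = t u ∧ (inner ℝ p x0 : ℝ) ≠ 0 := by
    obtain ⟨z, hz, hzt⟩ := hyper_meets D hu
    by_cases hzp : (inner ℝ p z : ℝ) = 0
    · have hc : ContinuousAt (fun ε : ℝ => z + ε • p) 0 := by fun_prop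
      have h1 : ∀ᶠ ε in 𝓝 (0 : ℝ), z + ε • p ∈ interior K := by
        apply hc.eventually
        show interior K ∈ 𝓝 (z + (0 : ℝ) • p)
        rw [zero_smul, add_zero]
        exact isOpen_interior.mem_nhds hz
      have h2 : ∀ᶠ ε in 𝓝[>] (0 : ℝ), z + ε • p ∈ interior K := h1.filter_mono nhdsWithin_le_nhds
      obtain ⟨ε, hε, hε0⟩ := (h2.and self_mem_nhdsWithin).exists
      have hε0' : (0 : ℝ) < ε := hε0
      refine ⟨_, interior_subset hε, ?_, ?_⟩
      · rw [inner_add_right, inner_smul_right, hup, hzt]; ring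
      · rw [inner_add_right, inner_smul_right, pp_one h, hzp]
        simpa using hε0'.ne'
    · exact ⟨z, interior_subset hz, hzt, hzp⟩
  set m := |(inner ℝ p x0 : ℝ)| / 2 with hm
  have habs : 0 < |(inner ℝ p x0 : ℝ)| := abs_pos.2 hx2
  have hmp : 0 < m := by positivity
  have hU : {x : E n | m < |(inner ℝ p x : ℝ)|} ∈ 𝓝 x0 := by
    apply (isOpen_lt continuous_const (by fun_prop)).mem_nhds
    show m < |(inner ℝ p x0 : ℝ)|
    rw [hm]; linarith
  obtain ⟨y, R, hy, hR, hBK, hBU⟩ := move_int D hu hx0 hx1 hU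
  obtain ⟨c1, η, hc1, hη, hslab⟩ := slab y hu hR
  have hlam := D.cs.lpos
  refine ⟨c1 * m ^ 2 / 8 / lam, by positivity, ?_⟩
  have hccon : Continuous fun v : E n => oc p q v + (inner ℝ p v : ℝ) • p :=
    oc_cont.add (by fun_prop)
  have hcval : oc p q u + (inner ℝ p u : ℝ) • p = u := by
    rw [oc_cor hC, hC.1]; simp
  have e1 : ∀ᶠ v in 𝓝 u, ‖oc p q v - u‖ < η := by
    have hc : ContinuousAt (fun v : E n => ‖oc p q v - u‖) u :=
      ((oc_cont.sub continuous_const).norm).continuousAt
    apply hc.eventually (gt_mem_nhds _)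
    show ‖oc p q u - u‖ < η
    rw [oc_cor hC]; simpa using hη
  have e2 : ∀ᶠ v in 𝓝 u, |t (oc p q v + (inner ℝ p v : ℝ) • p) - inner ℝ u y| < η := by
    have ht : ContinuousAt t ((fun v : E n => oc p q v + (inner ℝ p v : ℝ) • p) u) := by
      show ContinuousAt t (oc p q u + (inner ℝ p u : ℝ) • p)
      rw [hcval]; exact tcont D hu
    have ht2 : ContinuousAt (fun v : E n => t (oc p q v + (inner ℝ p v : ℝ) • p)) u :=
      ContinuousAt.comp (f := fun v : E n => oc p q v + (inner ℝ p v : ℝ) • p) ht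
        hccon.continuousAt
    have hc : ContinuousAt (fun v : E n => |t (oc p q v + (inner ℝ p v : ℝ) • p) -
        inner ℝ u y|) u := (ht2.sub continuousAt_const).abs
    apply hc.eventually (gt_mem_nhds _)
    show |t (oc p q u + (inner ℝ p u : ℝ) • p) - inner ℝ u y| < η
    rw [hcval, hy]; simpa using hη
  have e3 : ∀ᶠ v in 𝓝 u, m / 2 * (inner ℝ p v : ℝ) < η := by
    have hc : ContinuousAt (fun v : E n => m / 2 * (inner ℝ p v : ℝ)) u := by fun_prop
    apply hc.eventually (gt_mem_nhds _)
    show m / 2 * (inner ℝ p u : ℝ) < η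
    rw [hC.1]; simpa using hη
  have e4 : ∀ᶠ v in 𝓝 u, oc p q v ≠ 0 := by
    have hc : ContinuousAt (oc p q : E n → E n) u := oc_cont.continuousAt
    apply hc.eventually_ne
    rw [oc_cor hC]; exact hu
  filter_upwards [e1, e2, e3, e4] with v h1 h2 h3 h4 hvs
  unfold Sec at hvs
  have hb : 0 < (inner ℝ p v : ℝ) := (abs_nonneg _).trans_lt hvs
  set b : ℝ := inner ℝ p v with hbdef
  set w := oc p q v with hw
  set τ := t (w + b • p) with hτ
  have hwb : w + b • p ≠ 0 := by
    intro h0
    have h5 : (inner ℝ p (w + b • p) : ℝ) = 0 := by rw [h0]; simp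
    rw [inner_add_right, hw, p_oc h, inner_smul_right, pp_one h] at h5
    linarith
  have k1 := D.teq (w + b • p) hwb
  have k2 := D.tmin w h4 τ
  rw [← hτ] at k1
  -- symmetrisation
  have hint : ∀ z : E n, IntegrableOn (ff z τ) K := fun z => int_on hK.comp (ff_cont z τ)
  have k3 : GG K (w + (-b) • p) τ = GG K (w + b • p) τ := by
    have h5 := int_iot h (S := K) (fun x => mem_iot h hι x) (ff (w + b • p) τ)
    have h6 : ∀ x, ff (w + b • p) τ (iot p q x) = ff (w + (-b) • p) τ x := by
      intro x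
      unfold ff
      rw [← iot_symm, hw, iot_oc h]
    simp only [h6] at h5
    exact h5
  have k4 : 2 * (GG K (w + b • p) τ - GG K w τ) =
      ∫ x in K, (ff (w + b • p) τ x + ff (w + (-b) • p) τ x - 2 * ff w τ x) := by
    have i1 := hint (w + b • p)
    have i2 := hint (w + (-b) • p)
    have i3 := hint w
    have i12 : IntegrableOn (fun x => ff (w + b • p) τ x + ff (w + (-b) • p) τ x) K := i1.add i2
    have i4 : IntegrableOn (fun x => 2 * ff w τ x) K := i3.const_mul 2
    rw [integral_sub i12 i4, integral_add i1 i2, integral_const_mul]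
    have g1 : ∫ x in K, ff (w + b • p) τ x = GG K (w + b • p) τ := rfl
    have g2 : ∫ x in K, ff (w + (-b) • p) τ x = GG K (w + (-b) • p) τ := rfl
    have g3 : ∫ x in K, ff w τ x = GG K w τ := rfl
    rw [g1, g2, g3, k3]; ring
  have k5 : ∀ x : E n, ff (w + b • p) τ x + ff (w + (-b) • p) τ x - 2 * ff w τ x =
      max |inner ℝ w x - τ| |b * inner ℝ p x| - |inner ℝ w x - τ| := by
    intro x
    have e1 := mm (inner ℝ w x - τ) (b * inner ℝ p x)
    have e2 := mm (inner ℝ w x - τ) 0
    rw [abs_zero, max_eq_left (abs_nonneg (inner ℝ w x - τ)), add_zero, sub_zero] at e2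
    have f1 : (inner ℝ (w + b • p) x - τ : ℝ) = inner ℝ w x - τ + b * inner ℝ p x := by
      rw [inner_add_left, inner_smul_left]
      simp only [conj_trivial]; ring
    have f2 : (inner ℝ (w + (-b) • p) x - τ : ℝ) = inner ℝ w x - τ - b * inner ℝ p x := by
      rw [inner_add_left, inner_smul_left]
      simp only [conj_trivial]; ring
    unfold ff
    rw [f1, f2]
    linarith
  simp only [k5] at k4
  set S := ball y R ∩ {x : E n | |inner ℝ w x - τ| ≤ m / 2 * b} with hS
  have hSK : S ⊆ K := inter_subset_left.trans hBK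
  have hSm : MeasurableSet S := by
    apply measurableSet_ball.inter
    apply IsClosed.measurableSet
    exact isClosed_le (by fun_prop) continuous_const
  have hsl : c1 * (m / 2 * b) ≤ volume.real S :=
    hslab w τ (m / 2 * b) h1 h2 (by positivity) h3
  have hG : Continuous fun x : E n => max |inner ℝ w x - τ| |b * inner ℝ p x| -
      |inner ℝ w x - τ| := by fun_prop
  have hGi : IntegrableOn (fun x : E n => max |inner ℝ w x - τ| |b * inner ℝ p x| -
      |inner ℝ w x - τ|) K := int_on hK.comp hG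
  have h6 : ∫ x in S, (max |inner ℝ w x - τ| |b * inner ℝ p x| - |inner ℝ w x - τ|) ≤
      ∫ x in K, (max |inner ℝ w x - τ| |b * inner ℝ p x| - |inner ℝ w x - τ|) := by
    apply setIntegral_mono_set hGi
    · refine Filter.Eventually.of_forall fun x => ?_
      exact sub_nonneg.2 (le_max_left _ _)
    · exact Filter.Eventually.of_forall hSK
  have hlow : ∀ x ∈ S, m / 2 * b ≤ max |inner ℝ w x - τ| |b * inner ℝ p x| -
      |inner ℝ w x - τ| := by
    intro x hx
    have hx1 : m < |(inner ℝ p x : ℝ)| := hBU hx.1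
    have hx2 : |inner ℝ w x - τ| ≤ m / 2 * b := hx.2
    have h7 : m * b ≤ |b * inner ℝ p x| := by
      rw [abs_mul, abs_of_pos hb, mul_comm]
      exact mul_le_mul_of_nonneg_left hx1.le hb.le
    have h8 := le_max_right |inner ℝ w x - τ| |b * inner ℝ p x|
    linarith
  have hfin : volume S ≠ ⊤ :=
    ((measure_mono inter_subset_left).trans_lt measure_ball_lt_top).ne
  have h7 := setIntegral_ge_of_const_le hSm hfin hlow (hGi.mono_set hSK)
  rw [smul_eq_mul] at h7
  have h8 : c1 * (m / 2 * b) * (m / 2 * b) ≤ 2 * (GG K (w + b • p) τ - GG K w τ) := by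
    rw [k4]
    exact (mul_le_mul_of_nonneg_right hsl (by positivity)).trans (h7.trans h6)
  rw [div_mul_eq_mul_div, div_le_iff₀ hlam]
  nlinarith

/-- (STA) Positivity at `ε = 0`. -/
theorem start : S_start := by
  intro n K δ lam X t p q D h hι u hu hCS
  by_cases hC : Cor p q u
  · obtain ⟨c, hc, hev⟩ := start_corner D h hι hu hC
    exact start_of D h hι hc hev
  · have hup : 0 < (inner ℝ p u : ℝ) := by
      unfold CSec at hCS
      by_contra hcon
      push Not at hcon
      have h1 : |(inner ℝ q u : ℝ)| = 0 := le_antisymm (hCS.trans hcon) (abs_nonneg _)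
      have h2 : (inner ℝ p u : ℝ) = 0 := by
        rw [h1] at hCS
        linarith
      exact hC ⟨h2, abs_eq_zero.1 h1⟩
    obtain ⟨c, hc, hev⟩ := start_noncorner D h hι hup
    exact start_of D h hι hc hev

end Pool.Agent.Helper56.SY

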